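import Pool.Agent.N361.CV.Def

/-!
# Project CV, part SUN: sunflowers with the kernels `{x}` (helper747)
-/

set_option autoImplicit false

namespace Pool.Agent.N747.CV

open Finset Pool.Agent.N361.CV

/-- the subsets of `M` which contain no member of a family of disjoint sets -/
lemma cnt (Q : Finset (Finset ℕ)) : ∀ M : Finset ℕ, (∀ g ∈ Q, g ⊆ M) →
    (∀ g ∈ Q, ∀ h ∈ Q, g ≠ h → Disjoint g h) →
    ((M.powerset.filter (fun R => ∀ g ∈ Q, ¬ g ⊆ R)).card : ℝ) ≤
      2 ^ M.card * ∏ g ∈ Q, (1 - (1 / 2 : ℝ) ^ g.card) := by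
  classical
  induction Q using Finset.induction_on with
  | empty => intro M _ _; simp
  | insert g Q hg ih =>
    intro M hM hd
    have hgM : g ⊆ M := hM g (mem_insert_self _ _)
    have hdis : ∀ h ∈ Q, Disjoint h g := fun h hh =>
      hd h (mem_insert_of_mem hh) g (mem_insert_self _ _) (fun e => hg (e ▸ hh))
    have ih' := ih (M \ g) (fun h hh => subset_sdiff.2 ⟨hM h (mem_insert_of_mem hh), hdis h hh⟩)
      (fun a ha b hb hab => hd a (mem_insert_of_mem ha) b (mem_insert_of_mem hb) hab)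
    have h1 : (M.powerset.filter (fun R => ∀ h ∈ insert g Q, ¬ h ⊆ R)).card ≤
        ((g.powerset.erase g) ×ˢ ((M \ g).powerset.filter (fun R => ∀ h ∈ Q, ¬ h ⊆ R))).card := by
      refine card_le_card_of_injOn (fun R => (R ∩ g, R \ g)) ?_ ?_
      · intro R hR
        have hR' := mem_filter.1 (mem_coe.1 hR)
        have hRM := mem_powerset.1 hR'.1
        refine mem_coe.2 (mem_product.2 ⟨mem_erase.2 ⟨?_, mem_powerset.2 inter_subset_right⟩,
          mem_filter.2 ⟨mem_powerset.2 (sdiff_subset_sdiff hRM (subset_refl g)), ?_⟩⟩)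
        · intro e
          have e' : R ∩ g = g := e
          exact hR'.2 g (mem_insert_self _ _) (inter_eq_right.1 e')
        · intro h hh hs
          exact hR'.2 h (mem_insert_of_mem hh) (hs.trans sdiff_subset)
      · intro R _ S _ e
        have e1 : R ∩ g = S ∩ g := congrArg Prod.fst e
        have e2 : R \ g = S \ g := congrArg Prod.snd e
        rw [← sdiff_union_inter R g, ← sdiff_union_inter S g, e1, e2]
    rw [card_product, card_erase_of_mem (mem_powerset.2 (subset_refl g)), card_powerset] at h1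
    have h2 : ((M.powerset.filter (fun R => ∀ h ∈ insert g Q, ¬ h ⊆ R)).card : ℝ) ≤
        (2 ^ g.card - 1) * ((M \ g).powerset.filter (fun R => ∀ h ∈ Q, ¬ h ⊆ R)).card := by
      have h3 : ((2 ^ g.card - 1 : ℕ) : ℝ) = 2 ^ g.card - 1 := by
        rw [Nat.cast_sub Nat.one_le_two_pow]; push_cast; rfl
      rw [← h3]
      exact_mod_cast h1
    have h4 : (0:ℝ) ≤ 2 ^ g.card - 1 := by
      have : (1:ℝ) ≤ 2 ^ g.card := one_le_pow₀ (by norm_num)
      linarith
    refine h2.trans ((mul_le_mul_of_nonneg_left ih' h4).trans (le_of_eq ?_))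
    rw [prod_insert hg]
    have h5 : (2:ℝ) ^ M.card = 2 ^ (M \ g).card * 2 ^ g.card := by
      rw [← pow_add, card_sdiff_add_card_eq_card hgM]
    rw [h5]
    have h6 : (2:ℝ) ^ g.card * (1 - (1 / 2 : ℝ) ^ g.card) = 2 ^ g.card - 1 := by
      rw [mul_sub, mul_one, ← mul_pow]; norm_num
    rw [← h6]
    ring

/-- the number of subsets of `N` in which `x` is not covered -/
lemma one (N : Finset ℕ) (F : Finset (Finset ℕ)) (c : ℕ) (hc : 1 ≤ c) (x : ℕ) (hx : x ∈ N)
    (P : Finset (Finset ℕ)) (hP : P ⊆ F) (h1 : ∀ A ∈ P, x ∈ A ∧ A ⊆ N)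
    (h2 : ∀ A ∈ P, ∀ B ∈ P, A ≠ B → A ∩ B = {x})
    (h3 : Real.log (c * N.card / 2) / 2 ≤ ∑ A ∈ P, (1 / 2 : ℝ) ^ A.card) :
    (c : ℝ) * N.card * (N.powerset.filter (fun S => x ∈ S \ cov F S)).card ≤ 2 ^ N.card := by
  classical
  have hinj : Set.InjOn (fun A : Finset ℕ => A.erase x) (P : Set (Finset ℕ)) := by
    intro A hA B hB e
    have e' : A.erase x = B.erase x := e
    rw [← insert_erase (h1 A hA).1, ← insert_erase (h1 B hB).1, e']
  have hle : (N.powerset.filter (fun S => x ∈ S \ cov F S)).card ≤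
      ((N.erase x).powerset.filter (fun R => ∀ g ∈ P.image (fun A => A.erase x), ¬ g ⊆ R)).card := by
    refine card_le_card_of_injOn (fun S => S.erase x) ?_ ?_
    · intro S hS
      have hS' := mem_filter.1 (mem_coe.1 hS)
      have hxS := mem_sdiff.1 hS'.2
      refine mem_coe.2 (mem_filter.2 ⟨mem_powerset.2 (erase_subset_erase x (mem_powerset.1 hS'.1)), ?_⟩)
      intro g hg hgS
      obtain ⟨A, hA, rfl⟩ := mem_image.1 hg
      refine hxS.2 (mem_cov.2 ⟨A, hP hA, ?_, (h1 A hA).1⟩)
      intro y hy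
      by_cases hyx : y = x
      · rw [hyx]; exact hxS.1
      · exact (mem_erase.1 (hgS (mem_erase.2 ⟨hyx, hy⟩))).2
    · intro S hS T hT e
      have e' : S.erase x = T.erase x := e
      have hxS := (mem_sdiff.1 (mem_filter.1 (mem_coe.1 hS)).2).1
      have hxT := (mem_sdiff.1 (mem_filter.1 (mem_coe.1 hT)).2).1
      rw [← insert_erase hxS, ← insert_erase hxT, e']
  have hcnt := cnt (P.image (fun A => A.erase x)) (N.erase x)
    (by
      intro g hg
      obtain ⟨A, hA, rfl⟩ := mem_image.1 hg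
      exact erase_subset_erase x (h1 A hA).2)
    (by
      intro g hg h hh hne
      obtain ⟨A, hA, rfl⟩ := mem_image.1 hg
      obtain ⟨B, hB, rfl⟩ := mem_image.1 hh
      have hAB : A ≠ B := fun e => hne (by rw [e])
      rw [disjoint_left]
      intro y hyA hyB
      have hy := mem_inter.2 ⟨(mem_erase.1 hyA).2, (mem_erase.1 hyB).2⟩
      rw [h2 A hA B hB hAB, mem_singleton] at hy
      exact (mem_erase.1 hyA).1 hy)
  rw [prod_image hinj] at hcnt
  have hn : 0 < N.card := card_pos.2 ⟨x, hx⟩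
  have hpos : (0:ℝ) < c * N.card / 2 := by
    have : (0:ℝ) < c := by exact_mod_cast hc
    have : (0:ℝ) < N.card := by exact_mod_cast hn
    positivity
  have hprod : ∏ A ∈ P, (1 - (1 / 2 : ℝ) ^ (A.erase x).card) ≤ (c * N.card / 2 : ℝ)⁻¹ := by
    calc ∏ A ∈ P, (1 - (1 / 2 : ℝ) ^ (A.erase x).card)
        ≤ ∏ A ∈ P, Real.exp (-(2 * (1 / 2 : ℝ) ^ A.card)) := by
          refine prod_le_prod (fun A _ => ?_) (fun A hA => ?_)
          · have : (1 / 2 : ℝ) ^ (A.erase x).card ≤ 1 := pow_le_one₀ (by norm_num) (by norm_num)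
            linarith
          · have e : (1 / 2 : ℝ) ^ (A.erase x).card = 2 * (1 / 2 : ℝ) ^ A.card := by
              rw [← card_erase_add_one (h1 A hA).1, pow_succ]; ring
            rw [e]
            exact Real.one_sub_le_exp_neg _
      _ = Real.exp (-(2 * ∑ A ∈ P, (1 / 2 : ℝ) ^ A.card)) := by
          rw [← Real.exp_sum, sum_neg_distrib, ← mul_sum]
      _ ≤ Real.exp (-Real.log (c * N.card / 2)) := Real.exp_le_exp.2 (by linarith)
      _ = (c * N.card / 2 : ℝ)⁻¹ := by rw [Real.exp_neg, Real.exp_log hpos]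
  have hle' : ((N.powerset.filter (fun S => x ∈ S \ cov F S)).card : ℝ) ≤
      2 ^ (N.erase x).card * (c * N.card / 2 : ℝ)⁻¹ := by
    refine (Nat.cast_le.2 hle).trans (hcnt.trans ?_)
    exact mul_le_mul_of_nonneg_left hprod (by positivity)
  have h8 : (2:ℝ) ^ N.card = 2 ^ (N.erase x).card * 2 := by
    rw [← pow_succ, card_erase_add_one hx]
  rw [h8]
  calc (c : ℝ) * N.card * (N.powerset.filter (fun S => x ∈ S \ cov F S)).card
      ≤ c * N.card * (2 ^ (N.erase x).card * (c * N.card / 2 : ℝ)⁻¹) :=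
        mul_le_mul_of_nonneg_left hle' (by positivity)
    _ = 2 ^ (N.erase x).card * 2 := by
        have hne : (c : ℝ) * N.card ≠ 0 := by
          intro e; rw [e] at hpos; norm_num at hpos
        have hne' : (c : ℝ) * N.card / 2 ≠ 0 := hpos.ne'
        field_simp

theorem sun : S_SUN := by
  classical
  intro N F c hc h
  have e1 : unc F N = ∑ x ∈ N, (N.powerset.filter (fun S => x ∈ S \ cov F S)).card := by
    unfold unc
    have : ∀ S ∈ N.powerset, (S \ cov F S).card = ∑ x ∈ N, if x ∈ S \ cov F S then 1 else 0 := by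
      intro S hS
      rw [← card_filter]
      congr 1
      ext x
      simp only [mem_filter]
      refine ⟨fun hx => ⟨mem_powerset.1 hS (mem_sdiff.1 hx).1, hx⟩, fun hx => hx.2⟩
    rw [sum_congr rfl this, sum_comm]
    refine sum_congr rfl fun x _ => ?_
    rw [card_filter]
  rcases N.eq_empty_or_nonempty with h0 | h0
  · subst h0
    rw [e1]; simp
  · have hn : (0:ℝ) < N.card := by exact_mod_cast card_pos.2 h0
    have h2 : ∀ x ∈ N, (c : ℝ) * N.card * (N.powerset.filter (fun S => x ∈ S \ cov F S)).card ≤ 2 ^ N.card := by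
      intro x hx
      obtain ⟨P, hP, ha, hb, hs⟩ := h x hx
      exact one N F c hc x hx P hP ha hb hs
    have h3 : (c : ℝ) * N.card * unc F N ≤ N.card * 2 ^ N.card := by
      rw [e1]
      push_cast
      rw [mul_sum]
      refine (sum_le_sum h2).trans (le_of_eq ?_)
      rw [sum_const, nsmul_eq_mul]
    have h4 : (c : ℝ) * unc F N ≤ 2 ^ N.card := by
      have h5 : (N.card : ℝ) * (c * unc F N) ≤ N.card * 2 ^ N.card := by linarith
      exact le_of_mul_le_mul_left h5 hn
    exact_mod_cast h4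

end Pool.Agent.N747.CV
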